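import Pool.Agent.TH912.LS.Lower
import Pool.Agent.TH912.LS.UpperLog
import Pool.Agent.TH912.LS.UpperTwo

set_option autoImplicit false

/-!
# Local search for vertex cover: ratio 2 up to radius `c log n`, ratio `1 + ε` from `C log n` on

Local search with auxiliary states and a non-oblivious potential (`Pool.Agent.TH912.LS.Defs`). Every
vertex carries a state from a finite set `S`; the vertices whose state lies in `I` are selected and
must form a vertex cover. The potential is the sum over all vertices of a real cost that is an
arbitrary function of the radius-`r` view (the ball of radius `r` as a rooted graph with states, up to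
isomorphism). An improving move changes the states inside at most `m` balls of radius `t`, keeps the
selected set a vertex cover and lowers the potential.

* Lower bound. On suitable bipartite graphs of bounded degree, for all these choices with
  `64 m (t + r + 1) log (2k) ≤ log n`, and from every start cover that is invariant under the
  automorphisms of the graph (for instance the cover that selects all vertices), a run of improving moves ends in
  a local optimum with at least `(1 - 1/k) n` selected vertices, while `n/2` vertices form a cover.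
* Ratio 2 is reached on all graphs with `m = t = 1` and `r = 2`.
* With `m = 1`, `r = 0`, `t ≥ (4/ε) log n + 2` and the cardinality as potential, every local optimum
  of every graph has ratio at most `1 / (1 - ε)`.
-/

namespace Pool.Agent.Results.MP_cff830_lc.LocalSearchRatioTwo

open Pool.Agent.TH912.LS

theorem result :
    -- the lower bound `2 - 2/k` up to radius `c(k) log n`
    (∀ k : ℕ, 1 ≤ k → ∀ N : ℕ, ∃ (V : Type) (_ : Fintype V) (G : SimpleGraph V),
      N ≤ Fintype.card V ∧ G.IsBipartite ∧ (∀ v, (G.neighborSet v).ncard ≤ 2176 * k ^ 2) ∧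
      (∃ K : Set V, G.IsVertexCover K ∧ 2 * K.ncard = Fintype.card V) ∧
      ∀ (S : Type) [Finite S] (I : Set S) (r m t : ℕ) (F : LocalCost S r) (start : V → S),
        (m * (t + r + 1) : ℝ) * (64 * Real.log (2 * k)) ≤ Real.log (Fintype.card V) →
        G.IsVertexCover (sel I start) → (∀ (φ : G ≃g G) (v : V), start (φ v) = start v) →
        ∃ σ : V → S, Relation.ReflTransGen (Step F I m t G) start σ ∧ LocalOpt F I m t G σ ∧
          (1 - 1 / (k : ℝ)) * Fintype.card V ≤ (sel I σ).ncard) ∧
    -- ratio `2` with moves in one ball of radius `1` and a potential of radius `2`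
    (∀ n : ℕ, ∃ (S : Type) (_ : Finite S) (I : Set S) (F : LocalCost S 2), I.Nonempty ∧
      ∀ (V : Type) [Fintype V], Fintype.card V ≤ n → ∀ (G : SimpleGraph V) (σ : V → S),
        LocalOpt F I 1 1 G σ →
        ∀ K : Set V, G.IsVertexCover K → (sel I σ).ncard ≤ 2 * K.ncard) ∧
    -- ratio `1 / (1 - ε)` with the cardinality potential from radius `(4/ε) log n + 2` on
    ∃ F : LocalCost Bool 0,
      (∀ (V : Type) [Fintype V] (G : SimpleGraph V) (σ : V → Bool),
        F.total G σ = (sel {true} σ).ncard) ∧
      ∀ (V : Type) [Fintype V] (G : SimpleGraph V) (σ : V → Bool) (ε : ℝ) (t : ℕ),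
        0 < ε → ε ≤ 1 → 4 / ε * Real.log (Fintype.card V) + 2 ≤ t →
        LocalOpt F {true} 1 t G σ →
        ∀ K : Set V, G.IsVertexCover K → (1 - ε) * (sel {true} σ).ncard ≤ K.ncard := by
  refine ⟨fun k hk N => lower k hk N, ?_, cardCost, ?_, ?_⟩
  · intro n
    refine ⟨Option (Fin (n + 1)), inferInstance, {s | s ≠ none}, matchCost (Fin (n + 1)),
      ⟨some 0, by simp⟩, ?_⟩
    intro V _ hV G σ hσ K hK
    exact upper_two (by rw [Fintype.card_fin]; omega) G σ hσ K hK
  · intro V _ G σ
    classical
    rw [cardCost_total, ← Set.ncard_coe_finset]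
    congr 2
    ext x
    simp [sel]
  · intro V _ G σ ε t hε hε1 ht hσ K hK
    rcases isEmpty_or_nonempty V with hV | hV
    · have h1 : sel {true} σ = ∅ := Set.eq_empty_of_isEmpty _
      rw [h1]
      simp
    have hcard : (1 : ℝ) ≤ Fintype.card V := by exact_mod_cast Fintype.card_pos
    have hlog : ε / 2 ≤ Real.log (1 + ε) := by
      have h1 := Real.one_sub_inv_le_log_of_pos (show (0 : ℝ) < 1 + ε by linarith)
      refine le_trans ?_ h1
      have h2 : 1 - (1 + ε)⁻¹ = ε / (1 + ε) := by field_simp; ring
      rw [h2]
      exact div_le_div_of_nonneg_left hε.le (by linarith) (by linarith)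
    have hlogpos : 0 < Real.log (1 + ε) := by linarith
    have hl0 : 0 ≤ Real.log (Fintype.card V) := Real.log_nonneg hcard
    set N : ℕ := ⌊Real.log (Fintype.card V) / Real.log (1 + ε)⌋₊ + 1 with hN
    have hN1 : Real.log (Fintype.card V) / Real.log (1 + ε) ≤ N := by
      rw [hN]; push_cast
      exact (Nat.lt_floor_add_one _).le
    have hN2 : (N : ℝ) ≤ Real.log (Fintype.card V) / Real.log (1 + ε) + 1 := by
      rw [hN]; push_cast
      have := Nat.floor_le (div_nonneg hl0 hlogpos.le)
      linarith
    have hpow : (Fintype.card V : ℝ) ≤ (1 + ε) ^ N := by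
      rw [div_le_iff₀ hlogpos] at hN1
      rw [← Real.log_le_log_iff (by linarith) (by positivity), Real.log_pow]
      exact hN1
    refine upper_log G σ ε hε N t hpow (by omega) ?_ hσ K hK
    have h3 : Real.log (Fintype.card V) / Real.log (1 + ε) ≤
        Real.log (Fintype.card V) / (ε / 2) :=
      div_le_div_of_nonneg_left hl0 (by linarith) hlog
    have h4 : Real.log (Fintype.card V) / (ε / 2) = 2 / ε * Real.log (Fintype.card V) := by
      field_simp
    have h5 : 4 / ε * Real.log (Fintype.card V) = 2 * (2 / ε * Real.log (Fintype.card V)) := by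
      ring
    have h6 : (2 * N : ℝ) ≤ t := by
      rw [h5] at ht
      linarith
    exact_mod_cast h6

end Pool.Agent.Results.MP_cff830_lc.LocalSearchRatioTwo
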