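import Pool.Agent.H630VC.Avg4
import Pool.Agent.H630VC.Final3

/-!
# Vertex cover: the best ratio of monotone real circuits on all graphs is `n ^ (1/2 + o(1))`

The definitions used in the statement are in `Pool/Agent/H630VC/Model.lean`, `FreeModel.lean` and
`RandModel.lean`:

* `WGraph V`: graphs on the vertex set `V` with nonnegative weights; `unit G`: all weights one;
* `wInputs V`: the inputs of the circuits, that is the adjacency bits, the weights, the constants;
* `Prog inp l`: `l` lists the functions computed at the gates of a circuit of arbitrary
  nondecreasing real gates of fan-in two with inputs from `inp`;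
* `FProg inp l q`: the same with further gates, each an arbitrary function of the threshold bits on
  its wires; `q` lists the wires of the further gates, `wires q` is the number of these wires and
  `combos q` the product of the numbers `w + 1` over the further gates (`w` the number of wires of
  the gate; `2 ^ t` for `t` NOT gates);
* `Solves ρ l 𝓘`: the circuit computes, for all instances in `𝓘`, a number between the least weight
  of a vertex cover and `ρ` times this weight, or prints a `ρ`-approximate vertex cover;
* `RSolves ρ l 𝓘`: the same for a family `l r`, `r ∈ R`, of circuits, on each instance for at least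
  three quarters of the `r`.
-/

namespace Pool.Agent.Results.MP_cff830_lc.SquareRootRatio

open H630VC

/-- (1) Let `0 < η ≤ 1/2`, `n` large and `ρ ≥ 1`. Consider a randomised circuit of monotone real
gates and further gates which, on every graph with `n` vertices and unit weights, approximates the
least size of a vertex cover within the ratio `ρ`, or prints a `ρ`-approximate vertex cover. If
`ρ * combos ≤ n ^ (1/2 - η)` for all the circuits of the family, then some circuit of the family has
at least `2 ^ (n ^ (η/4))` gates and wires into further gates.
(2) For every `n ≥ 2` there is one circuit of monotone real gates, without further gates, with at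
most `n ^ 12` gates which solves this problem (in the sense of `Solves`) with the ratio
`16 √(n log n)` for all graphs with `n` vertices. -/
theorem result :
    (∀ η : ℝ, 0 < η → η ≤ 1 / 2 → ∃ N : ℕ, ∀ n : ℕ, N ≤ n → ∀ ρ : ℝ, 1 ≤ ρ →
      ∀ (R : Type) [Fintype R] [Nonempty R] (l : R → List (WGraph (Fin n) → ℝ))
        (q : R → List (List ((WGraph (Fin n) → ℝ) × ℝ))),
      (∀ r, FProg (wInputs (Fin n)) (l r) (q r)) → RSolves ρ l (unit '' Set.univ) →
      (∀ r, ρ * combos (q r) ≤ (n : ℝ) ^ (1 / 2 - η)) →
      ∃ r, (2 : ℝ) ^ ((n : ℝ) ^ (η / 4)) ≤ (l r).length + wires (q r)) ∧
    (∀ n : ℕ, 2 ≤ n → ∃ l : List (WGraph (Fin n) → ℝ), Prog (wInputs (Fin n)) l ∧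
      l.length ≤ n ^ 12 ∧ Solves (16 * Real.sqrt (n * Real.log n)) l (unit '' Set.univ)) :=
  ⟨fun η h1 h2 => asymp_rand_all η h1 h2, fun n hn => upper_unit n hn⟩

end Pool.Agent.Results.MP_cff830_lc.SquareRootRatio
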