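import Pool.Agent.TH700.PT.Cover

/-!
# Tensor networks which approximate vertex cover within less than 2 have exponential size

A tree tensor network `Net K V W` (`Pool/Agent/TH700/TN/Defs.lean`) has leaves that read one bit
each (with a vector in `K ^ W` for each value of the bit); an inner node combines the vectors of its
two children by an arbitrary bilinear map. It accepts the input `x` if a linear form of the vector
of the root is not zero. The field `K` and the weights are arbitrary, so there may be cancellations.
The tree is arbitrary; if every right child is a leaf then this is a matrix product (a weighted
ordered read-once branching program, for instance a read-once parity program for any order of the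
bits). The bond dimension is `card W`.

The input is a graph with `n` vertices, one bit for each pair. For every `g` there is a constant `D`
such that for `n ≥ D` networks with any number of nodes, which read every bit at most once, accept
all graphs with a vertex cover of at most `n / 2` vertices, and reject all graphs in which every
vertex cover has more than `(1 - 1 / g) n` vertices, have bond dimension at least `2 ^ (n / D)`.
So they do not decide whether the vertex cover number is at most `n / 2` if an error by a factor
`2 - 2 / g` is allowed. This holds up to the factor `2 ^ μ` also for random networks which never
accept a graph without small vertex cover and accept every graph with a vertex cover of size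
`n / 2` with probability at least `2 ^ (- μ)` (the deterministic case is `R = Unit`, `μ = 0`).

Conversely the number of vertex covers with at most `k` vertices is computed by a linear network
over `ℚ` with `n (n + 1) - 1` nodes and bond dimension at most `2 ^ n` which reads every bit once.

Proof: The nodes of the tree give a partition of all pairs of vertices into `t = 2048 g ^ 4 + 1`
parts, each of them the set of the bits read between at most three nodes, such that no part contains
more than `2 y ^ 2` pairs, `y = n / (16 g ^ 2)`. Every part has rank at most the cube of the bond
dimension. Consider the graphs in which just the pairs inside a set `A` of vertices are missing, and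
the mixtures of such graphs: for each part its own set `A_j`. If `Q` is an independent set of the
mixture with at least `n / g` vertices then for each part the vertices in the pairs of `Q` in this
part are in `A_j`, and the number of these vertices, summed over the parts, is at least `4 n`. So
for a fraction of at most `2 ^ (n - 4 n)` of all choices of the sets there is such a `Q`. On the
other hand, by the replacement lemma (choose disjoint bases for the parts, and replace the
restrictions of a further graph to the parts one after the other by members of these bases) among
any `t * rank + 1` accepted graphs some mixture of different ones is accepted. Count all families of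
that many graphs.
-/

set_option autoImplicit false

namespace Pool.Agent.Results.MP_cff830_lc.TensorNetworksRatioTwo

open Pool.Agent.TH700.TN Pool.Agent.TH700.PT

theorem result :
    (∀ g : ℕ, 1 ≤ g → ∃ D : ℕ, ∀ n : ℕ, D ≤ n →
      ∀ (μ : ℕ) (R : Type) [Fintype R] [Nonempty R] (K W : R → Type) [∀ ρ, Field (K ρ)]
        [∀ ρ, Fintype (W ρ)] (T : ∀ ρ, Net (K ρ) (Sym2 (Fin n)) (W ρ)) (a : ∀ ρ, W ρ → K ρ),
        (∀ ρ e, (T ρ).reads e ≤ 1) →
        (∀ ρ x, (∀ C, Cover x C → (g - 1) * n < g * C.card) → (T ρ).value (a ρ) x = 0) →
        (∀ x, (∃ C, Cover x C ∧ 2 * C.card ≤ n) →
          Nat.card R ≤ 2 ^ μ * Nat.card {ρ // (T ρ).value (a ρ) x ≠ 0}) →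
        ∃ ρ, 2 ^ n ≤ (2 ^ μ * Fintype.card (W ρ)) ^ D) ∧
    (∀ k n : ℕ, 1 ≤ n →
      ∃ (T : Net ℚ (Sym2 (Fin n)) {C : Finset (Fin n) // C.card ≤ k})
        (a : {C : Finset (Fin n) // C.card ≤ k} → ℚ),
        T.Linear ∧ (∀ e, T.reads e = 1) ∧ T.size = n * (n + 1) - 1 ∧
          ∀ x, T.value a x ≠ 0 ↔ ∃ C, Cover x C ∧ C.card ≤ k) :=
  ⟨fun _ hg => main_cover hg, fun k _ hn => upper_cover k hn⟩

end Pool.Agent.Results.MP_cff830_lc.TensorNetworksRatioTwo
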